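import Pool.Agent.W2helper5.KA.Stm

/-!
# Project KA, piece ARI
-/

set_option autoImplicit false

namespace Pool.Agent.W2helper97.KA

open Pool.Agent.W2helper5.KA

theorem ARI : P_ARI := by
  intro k _ z f g N _ _ _ _ hzf hzg hN
  have h1 : orderOf z ∣ Nat.gcd f g :=
    Nat.dvd_gcd (orderOf_dvd_of_pow_eq_one hzf) (orderOf_dvd_of_pow_eq_one hzg)
  have h2 : N ∣ Nat.lcm f g := by
    rw [Nat.dvd_iff_prime_pow_dvd_dvd]
    intro q a hq ha
    rcases hN q a hq ha with h | h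
    · exact h.trans (Nat.dvd_lcm_left f g)
    · exact h.trans (Nat.dvd_lcm_right f g)
  have h3 : orderOf z * N ∣ f * g := by
    rw [← Nat.gcd_mul_lcm f g]
    exact Nat.mul_dvd_mul h1 h2
  have h4 : orderOf z ∣ f * g / N := Nat.dvd_div_of_mul_dvd (by rwa [mul_comm] at h3)
  exact orderOf_dvd_iff_pow_eq_one.1 h4

end Pool.Agent.W2helper97.KA
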